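import Pool.Agent.H37.CNV.Stmts

set_option autoImplicit false

namespace Pool.CND

open Finset Matrix

theorem vgw_thm (h1 : S_VB1) (h2 : S_VB2) : S_VGW := by
  intro p F _ f q σ hp hf hq hcard hσ W I C n hCW hWI hC hWp hIW hIC hcen hpn hIn
  have hW : W ≠ ⊥ := fun h => hC (le_bot_iff.1 (h ▸ hCW))
  obtain ⟨h, hh⟩ := h1 p F f q σ hp hf hq hcard hσ W hW hWp
  have hconj : ∀ x : SU3 σ, (MulAut.conj h⁻¹) x = h⁻¹ * x * h := by
    intro x
    simp
  have hcm : ∀ K : Subgroup (SU3 σ),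
      Nat.card (K.map (MulAut.conj h⁻¹).toMonoidHom) = Nat.card K := by
    intro K
    exact (Nat.card_congr (K.equivMapOfInjective _ (MulAut.conj h⁻¹).injective).toEquiv).symm
  have hcm' : ∀ K : Subgroup (SU3 σ),
      Nat.card (K.map (MulAut.conj h⁻¹).symm.toMonoidHom) = Nat.card K := by
    intro K
    exact (Nat.card_congr
      (K.equivMapOfInjective _ (MulAut.conj h⁻¹).symm.injective).toEquiv).symm
  have key := h2 p F f q σ hp hf hq hcard hσ
    (W.map (MulAut.conj h⁻¹).toMonoidHom) (I.map (MulAut.conj h⁻¹).toMonoidHom)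
    (C.map (MulAut.conj h⁻¹).toMonoidHom) n
    (by
      rintro _ ⟨g, hg, rfl⟩
      have := hh g (hIW g hg)
      rw [← hconj g] at this
      exact this)
    (Subgroup.map_mono hCW) (Subgroup.map_mono hWI)
    (by rw [hcm]; exact hWp)
    (by
      rintro _ ⟨g, hg, rfl⟩ _ ⟨w, hw, rfl⟩
      exact ⟨g * w * g⁻¹, hIW g hg w hw, by
        simp only [map_mul, map_inv]⟩)
    (by
      rintro _ ⟨g, hg, rfl⟩ _ ⟨w, hw, rfl⟩
      exact ⟨g * w * g⁻¹, hIC g hg w hw, by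
        simp only [map_mul, map_inv]⟩)
    (by
      rintro _ ⟨w, hw, rfl⟩ _ ⟨x, hx, rfl⟩
      rw [← map_mul, ← map_mul, hcen w hw x hx])
    hpn
    (by rw [hcm, hcm]; exact hIn)
  obtain ⟨⟨A, d, hAW, hAc, hd, hWA⟩, hk⟩ := key
  refine ⟨⟨A.map (MulAut.conj h⁻¹).symm.toMonoidHom, d, ?_, ?_, hd, ?_⟩, ?_⟩
  · rintro _ ⟨a, ha, rfl⟩
    obtain ⟨w, hw, hwa⟩ := hAW ha
    have : (MulAut.conj h⁻¹).symm.toMonoidHom a = w := by
      rw [← hwa]
      exact (MulAut.conj h⁻¹).symm_apply_apply w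
    rw [this]
    exact hw
  · rintro _ ⟨a, ha, rfl⟩ _ ⟨b, hb, rfl⟩
    rw [← map_mul, ← map_mul, hAc a ha b hb]
  · rw [hcm', ← hWA, hcm]
  · intro g hg x hx
    have := hk _ (Subgroup.mem_map_of_mem (MulAut.conj h⁻¹).toMonoidHom hg) _
      (Subgroup.mem_map_of_mem (MulAut.conj h⁻¹).toMonoidHom hx)
    rw [← map_pow, ← map_mul, ← map_mul] at this
    exact (MulAut.conj h⁻¹).injective this

end Pool.CND
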